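import Pool.Agent.Y843.HS.Stm
import Pool.Agent.Helper112.Lp.Kbh

/-!
The upper bound sieve of Brun and Hooley, with the ratio to the expected density bounded in terms
of the dimension only.
-/

set_option autoImplicit false

open Finset

namespace Pool.Agent.Y257.HS

open Pool.Agent.Y843.HS
open Pool.Agent.Helper112.LP Pool.Agent.Helper112.LP.Kbh

/-- the block of primes number `i` -/
def Bl (i : ℕ) : Finset ℕ := Pr (2 ^ 2 ^ i) (2 ^ 2 ^ (i + 1))

/-- the level of the truncation -/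
noncomputable def ph (t : ℕ) (V : Finset ℕ) : ℝ := if V.card ≤ 2 * t then (-1) ^ V.card else 0

lemma ph_abs (t : ℕ) (V : Finset ℕ) : |ph t V| ≤ 1 := by
  unfold ph
  split_ifs
  · rw [abs_pow]; simp
  · simp

lemma pp_mono {i j : ℕ} (h : i ≤ j) : (2 : ℕ) ^ 2 ^ i ≤ 2 ^ 2 ^ j :=
  Nat.pow_le_pow_right (by norm_num) (Nat.pow_le_pow_right (by norm_num) h)

lemma Pr_succ (J0 J : ℕ) (h : J0 ≤ J) :
    Pr (2 ^ 2 ^ J0) (2 ^ 2 ^ (J + 1)) = Pr (2 ^ 2 ^ J0) (2 ^ 2 ^ J) ∪ Bl J := by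
  have h1 := pp_mono h
  have h2 := pp_mono (Nat.le_succ J)
  ext p
  unfold Bl Pr
  simp only [mem_union, mem_filter, mem_Ioc]
  constructor
  · rintro ⟨⟨h3, h4⟩, h5⟩
    by_cases h6 : p ≤ 2 ^ 2 ^ J
    · exact Or.inl ⟨⟨h3, h6⟩, h5⟩
    · exact Or.inr ⟨⟨by omega, h4⟩, h5⟩
  · rintro (⟨⟨h3, h4⟩, h5⟩ | ⟨⟨h3, h4⟩, h5⟩)
    · exact ⟨⟨h3, h4.trans h2⟩, h5⟩
    · exact ⟨⟨by omega, h4⟩, h5⟩

lemma Pr_disj (J0 J : ℕ) : Disjoint (Pr (2 ^ 2 ^ J0) (2 ^ 2 ^ J)) (Bl J) := by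
  rw [disjoint_left]
  intro p hp hq
  unfold Bl Pr at *
  simp only [mem_filter, mem_Ioc] at hp hq
  omega

lemma Bl_sub (J0 J i : ℕ) (h0 : J0 ≤ i) (h1 : i < J) : Bl i ⊆ Pr (2 ^ 2 ^ J0) (2 ^ 2 ^ J) := by
  have h2 := pp_mono h0
  have h3 := pp_mono (Nat.succ_le_of_lt h1)
  intro p hp
  unfold Bl Pr at *
  simp only [mem_filter, mem_Ioc, Nat.succ_eq_add_one] at hp h3 ⊢
  exact ⟨⟨by omega, by omega⟩, hp.2⟩

/-- product formula for a disjoint union -/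
lemma sum_union (A B : Finset ℕ) (h : Disjoint A B) (F G : Finset ℕ → ℝ) :
    ∑ U ∈ (A ∪ B).powerset, F (U ∩ A) * G (U ∩ B) =
      (∑ U ∈ A.powerset, F U) * ∑ V ∈ B.powerset, G V := by
  rw [sum_mul_sum, ← sum_product']
  refine sum_nbij' (fun U => (U ∩ A, U ∩ B)) (fun z => z.1 ∪ z.2) ?_ ?_ ?_ ?_ ?_
  · intro U _
    rw [mem_product, mem_powerset, mem_powerset]
    exact ⟨inter_subset_right, inter_subset_right⟩
  · intro z hz
    rw [mem_product, mem_powerset, mem_powerset] at hz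
    rw [mem_powerset]
    exact union_subset_union hz.1 hz.2
  · intro U hU
    rw [mem_powerset] at hU
    simp only
    rw [← inter_union_distrib_left]
    exact inter_eq_left.2 hU
  · intro z hz
    rw [mem_product, mem_powerset, mem_powerset] at hz
    have h1 : z.2 ∩ A = ∅ := by
      rw [← disjoint_iff_inter_eq_empty]
      exact (h.mono_right hz.2).symm
    have h2 : z.1 ∩ B = ∅ := by
      rw [← disjoint_iff_inter_eq_empty]
      exact h.mono_left hz.1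
    ext1
    · simp only
      rw [union_inter_distrib_right, h1, union_empty]
      exact inter_eq_left.2 hz.1
    · simp only
      rw [union_inter_distrib_right, h2, empty_union]
      exact inter_eq_left.2 hz.2
  · intro U _
    rfl

/-- product formula over the blocks -/
lemma sum_blocks (J0 : ℕ) (F : ℕ → Finset ℕ → ℝ) : ∀ J : ℕ, J0 ≤ J →
    ∑ U ∈ (Pr (2 ^ 2 ^ J0) (2 ^ 2 ^ J)).powerset, ∏ i ∈ Ico J0 J, F i (U ∩ Bl i) =
      ∏ i ∈ Ico J0 J, ∑ V ∈ (Bl i).powerset, F i V := by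
  intro J hJ
  induction J, hJ using Nat.le_induction with
  | base =>
    have : Pr (2 ^ 2 ^ J0) (2 ^ 2 ^ J0) = ∅ := by unfold Pr; simp
    rw [this]; simp
  | succ J hJ ih =>
    rw [Pr_succ J0 J hJ, prod_Ico_succ_top hJ, ← ih]
    rw [← sum_union _ _ (Pr_disj J0 J) (fun U => ∏ i ∈ Ico J0 J, F i (U ∩ Bl i)) (F J)]
    refine sum_congr rfl fun U _ => ?_
    rw [prod_Ico_succ_top hJ]
    congr 1
    refine prod_congr rfl fun i hi => ?_
    rw [mem_Ico] at hi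
    rw [inter_assoc, inter_eq_right.2 (Bl_sub J0 J i hi.1 hi.2)]

/-- product over the primes, block by block -/
lemma prod_blocks (J0 : ℕ) (f : ℕ → ℝ) (U : Finset ℕ) : ∀ J : ℕ, J0 ≤ J →
    ∏ p ∈ U ∩ Pr (2 ^ 2 ^ J0) (2 ^ 2 ^ J), f p =
      ∏ i ∈ Ico J0 J, ∏ p ∈ U ∩ Bl i, f p := by
  intro J hJ
  induction J, hJ using Nat.le_induction with
  | base =>
    have : Pr (2 ^ 2 ^ J0) (2 ^ 2 ^ J0) = ∅ := by unfold Pr; simp
    rw [this]; simp
  | succ J hJ ih =>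
    rw [Pr_succ J0 J hJ, prod_Ico_succ_top hJ, ← ih, inter_union_distrib_left,
      prod_union ((Pr_disj J0 J).mono inter_subset_right inter_subset_right)]

/-- the number of factors -/
noncomputable def th (J0 J m0 : ℕ) (U : Finset ℕ) : ℝ :=
  ∏ i ∈ Ico J0 J, ph (J - i + m0) (U ∩ Bl i)

lemma th_empty (J0 J m0 : ℕ) : th J0 J m0 ∅ = 1 := by
  unfold th
  refine prod_eq_one fun i _ => ?_
  unfold ph
  rw [empty_inter, card_empty, if_pos (Nat.zero_le _), pow_zero]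

lemma th_abs (J0 J m0 : ℕ) (U : Finset ℕ) : |th J0 J m0 U| ≤ 1 := by
  unfold th
  rw [abs_prod]
  exact prod_le_one (fun i _ => abs_nonneg _) fun i _ => ph_abs _ _

/-- the functional of the weights is a product of truncated sums -/
lemma th_sum (J0 J m0 : ℕ) (hJ : J0 ≤ J) (g : ℕ → ℝ) :
    ∑ U ∈ (Pr (2 ^ 2 ^ J0) (2 ^ 2 ^ J)).powerset, th J0 J m0 U * ∏ p ∈ U, g p =
      ∏ i ∈ Ico J0 J, bhA g (2 * (J - i + m0)) (Bl i) := by
  have h1 := sum_blocks J0 (fun i V => ph (J - i + m0) V * ∏ p ∈ V, g p) J hJ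
  have h2 : ∀ i ∈ Ico J0 J, ∑ V ∈ (Bl i).powerset, ph (J - i + m0) V * ∏ p ∈ V, g p =
      bhA g (2 * (J - i + m0)) (Bl i) := by
    intro i _
    unfold bhA ph
    rw [sum_filter]
    refine sum_congr rfl fun V _ => ?_
    split_ifs
    · rfl
    · simp
  rw [← prod_congr rfl h2, ← h1]
  refine sum_congr rfl fun U hU => ?_
  rw [mem_powerset] at hU
  unfold th
  rw [prod_mul_distrib, ← prod_blocks J0 g U J hJ, inter_eq_left.2 hU]

lemma VV_blocks (Z : ℕ → Finset ℕ) (J0 J : ℕ) (hJ : J0 ≤ J) :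
    VV Z (2 ^ 2 ^ J0) (2 ^ 2 ^ J) =
      ∏ i ∈ Ico J0 J, ∏ p ∈ Bl i, (1 - ((Z p).card : ℝ) / p) := by
  unfold VV
  have h := prod_blocks J0 (fun p => 1 - ((Z p).card : ℝ) / p) (Pr (2 ^ 2 ^ J0) (2 ^ 2 ^ J)) J hJ
  rw [inter_self] at h
  rw [h]
  refine prod_congr rfl fun i hi => ?_
  rw [mem_Ico] at hi
  rw [inter_eq_right.2 (Bl_sub J0 J i hi.1 hi.2)]

/-- the level -/
lemma level (J0 J m0 : ℕ) (hJ : J0 ≤ J) (U : Finset ℕ) (hU : U ⊆ Pr (2 ^ 2 ^ J0) (2 ^ 2 ^ J))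
    (h : th J0 J m0 U ≠ 0) : ∏ p ∈ U, p ≤ (2 ^ 2 ^ J) ^ (4 * (m0 + 2)) := by
  have h1 : ∀ i ∈ Ico J0 J, (U ∩ Bl i).card ≤ 2 * (J - i + m0) := by
    intro i hi
    unfold th at h
    rw [prod_ne_zero_iff] at h
    have h2 := h i hi
    unfold ph at h2
    by_contra hcon
    exact h2 (if_neg hcon)
  have h3 : ((∏ p ∈ U, p : ℕ) : ℝ) = ∏ i ∈ Ico J0 J, ∏ p ∈ U ∩ Bl i, (p : ℝ) := by
    rw [← prod_blocks J0 (fun p => (p : ℝ)) U J hJ, inter_eq_left.2 hU]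
    push_cast
    rfl
  have h4 : ∀ i ∈ Ico J0 J, ∏ p ∈ U ∩ Bl i, (p : ℝ) ≤ (2 : ℝ) ^ (2 ^ (i + 1) * (2 * (J - i + m0))) := by
    intro i hi
    have h5 : ∏ p ∈ U ∩ Bl i, (p : ℝ) ≤ ∏ _p ∈ U ∩ Bl i, (2 : ℝ) ^ 2 ^ (i + 1) := by
      refine prod_le_prod (fun p _ => Nat.cast_nonneg p) fun p hp => ?_
      rw [mem_inter] at hp
      have h6 := hp.2
      unfold Bl Pr at h6
      rw [mem_filter, mem_Ioc] at h6
      exact_mod_cast h6.1.2
    refine h5.trans ?_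
    rw [prod_const, ← pow_mul]
    exact pow_le_pow_right₀ (by norm_num) (Nat.mul_le_mul_left _ (h1 i hi))
  have h5 : ∀ J : ℕ, J0 ≤ J → ∑ i ∈ Ico J0 J, 2 ^ (i + 1) * (2 * (J - i + m0)) ≤
      2 ^ J * (4 * (m0 + 2)) := by
    intro J hJ
    induction J, hJ using Nat.le_induction with
    | base => simp
    | succ J hJ ih =>
      rw [sum_Ico_succ_top hJ]
      have h6 : ∑ i ∈ Ico J0 J, 2 ^ (i + 1) * (2 * (J + 1 - i + m0)) =
          ∑ i ∈ Ico J0 J, 2 ^ (i + 1) * (2 * (J - i + m0)) + 4 * ∑ i ∈ Ico J0 J, 2 ^ i := by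
        rw [mul_sum, ← sum_add_distrib]
        refine sum_congr rfl fun i hi => ?_
        rw [mem_Ico] at hi
        rw [show J + 1 - i + m0 = (J - i + m0) + 1 by omega]
        ring
      have h7 : ∑ i ∈ Ico J0 J, 2 ^ i ≤ 2 ^ J := by
        calc ∑ i ∈ Ico J0 J, 2 ^ i ≤ ∑ i ∈ range J, 2 ^ i := by
              apply sum_le_sum_of_subset
              intro i hi
              rw [mem_Ico] at hi
              rw [mem_range]
              exact hi.2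
          _ ≤ 2 ^ J := by
              have := Nat.geomSum_lt (m := 2) (n := J) (s := range J) (by norm_num)
                (fun k hk => mem_range.1 hk)
              exact this.le
      rw [h6, show J + 1 - J + m0 = m0 + 1 by omega, pow_succ]
      have h8 : 2 ^ (J + 1) = 2 ^ J * 2 := pow_succ _ _
      nlinarith
  have h6 : ((∏ p ∈ U, p : ℕ) : ℝ) ≤ (((2 ^ 2 ^ J) ^ (4 * (m0 + 2)) : ℕ) : ℝ) := by
    rw [h3]
    calc ∏ i ∈ Ico J0 J, ∏ p ∈ U ∩ Bl i, (p : ℝ)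
        ≤ ∏ i ∈ Ico J0 J, (2 : ℝ) ^ (2 ^ (i + 1) * (2 * (J - i + m0))) :=
          prod_le_prod (fun i _ => prod_nonneg fun p _ => Nat.cast_nonneg p) h4
      _ = (2 : ℝ) ^ (∑ i ∈ Ico J0 J, 2 ^ (i + 1) * (2 * (J - i + m0))) :=
          prod_pow_eq_pow_sum _ _ _
      _ ≤ (2 : ℝ) ^ (2 ^ J * (4 * (m0 + 2))) := pow_le_pow_right₀ (by norm_num) (h5 J hJ)
      _ = _ := by push_cast; rw [← pow_mul]
  exact_mod_cast h6

/-- the tail of the exponential series -/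
lemma tail1 (x : ℝ) (hx : 0 ≤ x) (r : ℕ) (hr1 : 1 ≤ r) (hr : 21 * x ≤ r) :
    x ^ r / r.factorial * Real.exp (2 * x) ≤ (1 / 2) ^ r := by
  have hr0 : (0 : ℝ) < r := by exact_mod_cast hr1
  have h1 := Real.pow_div_factorial_le_exp (r : ℝ) hr0.le r
  have he : Real.exp 1 < 2.7182818286 := Real.exp_one_lt_d9
  have he2 : 2.7182818283 < Real.exp 1 := Real.exp_one_gt_d9
  have e0 : (0 : ℝ) < Real.exp 1 := Real.exp_pos _
  have h2 : x ^ r ≤ (1 / 21) ^ r * (r : ℝ) ^ r := by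
    rw [← mul_pow]
    apply pow_le_pow_left₀ hx
    linarith
  have h3 : x ^ r / r.factorial ≤ (1 / 21) ^ r * Real.exp r := by
    calc x ^ r / r.factorial ≤ (1 / 21) ^ r * (r : ℝ) ^ r / r.factorial := by gcongr
      _ = (1 / 21) ^ r * ((r : ℝ) ^ r / r.factorial) := by ring
      _ ≤ _ := mul_le_mul_of_nonneg_left h1 (by positivity)
  have h4 : Real.exp (2 * x) ≤ Real.exp r := Real.exp_le_exp.2 (by linarith)
  have h5 : Real.exp (r : ℝ) = Real.exp 1 ^ r := by rw [← Real.exp_nat_mul, mul_one]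
  calc x ^ r / r.factorial * Real.exp (2 * x) ≤ ((1 / 21) ^ r * Real.exp r) * Real.exp r :=
        mul_le_mul h3 h4 (Real.exp_pos _).le (by positivity)
    _ = (1 / 21 * Real.exp 1 * Real.exp 1) ^ r := by rw [h5]; ring
    _ ≤ (1 / 2) ^ r := by
        apply pow_le_pow_left₀ (by positivity)
        nlinarith

lemma Bl_sub_Gj (i : ℕ) : Bl i ⊆ Gj (i + 1) := by
  intro p hp
  unfold Bl Pr at hp
  unfold Gj
  rw [mem_filter, mem_Ioc] at hp
  rw [mem_filter, mem_Ico, Nat.add_sub_cancel]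
  refine ⟨⟨hp.1.1.le, ?_⟩, hp.2⟩
  rcases lt_or_eq_of_le hp.1.2 with h | h
  · exact h
  · exfalso
    have h1 := hp.2
    rw [h] at h1
    have h2 : 2 ≤ 2 ^ (i + 1) := by
      calc 2 = 2 ^ 1 := by norm_num
        _ ≤ 2 ^ (i + 1) := Nat.pow_le_pow_right (by norm_num) (by omega)
    exact Nat.Prime.not_prime_pow h2 h1

lemma Th_eq (Z : ℕ → Finset ℕ) (J0 J m0 n : ℕ) (hJ : J0 ≤ J) :
    Th Z (2 ^ 2 ^ J0) (2 ^ 2 ^ J) (th J0 J m0) n =
      ∏ i ∈ Ico J0 J, bhA (fun p => if n % p ∈ Z p then 1 else 0) (2 * (J - i + m0)) (Bl i) := by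
  rw [← th_sum J0 J m0 hJ]
  unfold Th
  rw [sum_filter]
  refine sum_congr rfl fun U _ => ?_
  by_cases h : ∀ p ∈ U, n % p ∈ Z p
  · have h1 : ∏ p ∈ U, (if n % p ∈ Z p then (1 : ℝ) else 0) = 1 :=
      prod_eq_one fun p hp => if_pos (h p hp)
    rw [if_pos h, h1, mul_one]
  · have h1 : ∏ p ∈ U, (if n % p ∈ Z p then (1 : ℝ) else 0) = 0 := by
      push Not at h
      obtain ⟨p, hp, hnp⟩ := h
      exact prod_eq_zero hp (if_neg hnp)
    rw [if_neg h, h1, mul_zero]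


theorem s_TH : S_TH := by
  intro r
  obtain ⟨CM, hCM, hM⟩ := mertens_group
  set L : ℝ := Real.log 2 + CM with hLdef
  have hlog2 : 0 < Real.log 2 := Real.log_pos (by norm_num)
  have hL0 : 0 < L := by rw [hLdef]; linarith
  have hLs : ∀ i : ℕ, ∑ l ∈ Gj (i + 1), (1 : ℝ) / l ≤ L := by
    intro i
    have h1 := (abs_le.1 (hM (i + 1) (by omega))).2
    have h2 : CM / 2 ^ (i + 1) ≤ CM := div_le_self hCM.le (one_le_pow₀ (by norm_num))
    rw [hLdef]; linarith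
  set x0 : ℝ := r * L with hx0
  have hx00 : 0 ≤ x0 := by positivity
  obtain ⟨m0, hm0⟩ := exists_nat_ge (21 * x0)
  refine ⟨4 * (m0 + 2) + 2 * r + 3, by omega, ?_⟩
  intro J0 J hJ0 hJ Z hZ
  set C : ℕ := 4 * (m0 + 2) + 2 * r + 3 with hC
  have hz : ∀ p ∈ Pr (2 ^ 2 ^ J0) (2 ^ 2 ^ J), 2 * r < p := by
    intro p hp
    unfold Pr at hp
    rw [mem_filter, mem_Ioc] at hp
    have h1 : J0 < 2 ^ J0 := Nat.lt_two_pow_self
    have h2 : 2 ^ J0 < 2 ^ 2 ^ J0 := Nat.lt_two_pow_self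
    omega
  set g : ℕ → ℝ := fun p => ((Z p).card : ℝ) / p with hg
  have hgr : ∀ p ∈ Pr (2 ^ 2 ^ J0) (2 ^ 2 ^ J), 0 ≤ g p ∧ g p ≤ r * (1 / (p : ℝ)) ∧ g p ≤ 1 / 2 := by
    intro p hp
    have h1 : ((Z p).card : ℝ) ≤ r := by exact_mod_cast (hZ p hp).1
    have h2 := hz p hp
    have h3 : 2 * (r : ℝ) < p := by exact_mod_cast h2
    have h4 : (0 : ℝ) < p := by
      have : (0 : ℝ) ≤ r := Nat.cast_nonneg r
      linarith
    refine ⟨by rw [hg]; positivity, ?_, ?_⟩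
    · rw [hg]
      simp only
      rw [mul_one_div]
      gcongr
    · rw [hg]
      simp only
      rw [div_le_div_iff₀ h4 (by norm_num)]
      linarith
  have hBg : ∀ i ∈ Ico J0 J, ∀ p ∈ Bl i, 0 ≤ g p ∧ g p ≤ r * (1 / (p : ℝ)) ∧ g p ≤ 1 / 2 := by
    intro i hi p hp
    rw [mem_Ico] at hi
    exact hgr p (Bl_sub J0 J i hi.1 hi.2 hp)
  set V : ℕ → ℝ := fun i => ∏ p ∈ Bl i, (1 - g p) with hV
  set Tr : ℕ → ℝ := fun i => bhA g (2 * (J - i + m0)) (Bl i) with hTr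
  set Er : ℕ → ℝ := fun i => bhE g (2 * (J - i + m0) + 1) (Bl i) with hEr
  have hbonf : ∀ i ∈ Ico J0 J, V i ≤ Tr i ∧ Tr i ≤ V i + Er i := by
    intro i hi
    have h := bh_bonf g (Bl i) (fun l hl => ⟨(hBg i hi l hl).1, by
      linarith [(hBg i hi l hl).2.2]⟩) (2 * (J - i + m0))
    rw [(even_two_mul _).neg_one_pow, one_mul] at h
    constructor
    · have := h.1; simp only [hV, hTr]; linarith
    · have := h.2; simp only [hV, hTr, hEr]; linarith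
  have hgsum : ∀ i ∈ Ico J0 J, ∑ l ∈ Bl i, g l ≤ x0 := by
    intro i hi
    calc ∑ l ∈ Bl i, g l ≤ ∑ l ∈ Bl i, (r : ℝ) * (1 / (l : ℝ)) :=
          sum_le_sum fun l hl => (hBg i hi l hl).2.1
      _ = r * ∑ l ∈ Bl i, 1 / (l : ℝ) := by rw [mul_sum]
      _ ≤ r * ∑ l ∈ Gj (i + 1), 1 / (l : ℝ) := by
          apply mul_le_mul_of_nonneg_left _ (Nat.cast_nonneg r)
          apply sum_le_sum_of_subset_of_nonneg (Bl_sub_Gj i)
          intro l _ _
          positivity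
      _ ≤ r * L := mul_le_mul_of_nonneg_left (hLs i) (Nat.cast_nonneg r)
      _ = x0 := by rw [hx0]
  set v : ℝ := Real.exp (-(2 * x0)) with hv
  have hv0 : 0 < v := Real.exp_pos _
  have hVv : ∀ i ∈ Ico J0 J, v ≤ V i := by
    intro i hi
    have h1 : Real.exp (-(2 * ∑ l ∈ Bl i, g l)) ≤ V i := by
      have h2 : -(2 * ∑ l ∈ Bl i, g l) = ∑ l ∈ Bl i, -(2 * g l) := by
        rw [mul_sum, ← sum_neg_distrib]
      rw [h2, Real.exp_sum]
      refine prod_le_prod (fun l _ => (Real.exp_pos _).le) fun l hl => ?_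
      exact bh_inv_ge (hBg i hi l hl).1 (hBg i hi l hl).2.2
    refine le_trans ?_ h1
    rw [hv]
    exact Real.exp_le_exp.2 (by linarith [hgsum i hi])
  have hEr0 : ∀ i ∈ Ico J0 J, 0 ≤ Er i := fun i hi =>
    bhE_nonneg _ _ _ fun l hl => (hBg i hi l hl).1
  have hErv : ∀ i ∈ Ico J0 J, Er i / v ≤ (1 / 2) ^ (2 * (J - i + m0) + 1) := by
    intro i hi
    have h1 : Er i / v = Er i * Real.exp (2 * x0) := by
      rw [hv, Real.exp_neg, div_inv_eq_mul]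
    rw [h1]
    have h2 : Er i ≤ x0 ^ (2 * (J - i + m0) + 1) / (2 * (J - i + m0) + 1).factorial := by
      refine (bhE_le g (Bl i) (fun l hl => (hBg i hi l hl).1) _).trans ?_
      have h0 : 0 ≤ ∑ l ∈ Bl i, g l := sum_nonneg fun l hl => (hBg i hi l hl).1
      exact div_le_div_of_nonneg_right (pow_le_pow_left₀ h0 (hgsum i hi) _) (Nat.cast_nonneg _)
    refine le_trans (mul_le_mul_of_nonneg_right h2 (Real.exp_pos _).le) ?_
    apply tail1 x0 hx00 _ (by omega)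
    refine hm0.trans ?_
    exact_mod_cast (by omega : m0 ≤ 2 * (J - i + m0) + 1)
  have htail : ∑ i ∈ Ico J0 J, Er i / v ≤ 1 := by
    have h1 : ∑ i ∈ Ico J0 J, Er i / v ≤ ∑ i ∈ Ico J0 J, (1 / 2 : ℝ) ^ (J - i) := by
      refine sum_le_sum fun i hi => (hErv i hi).trans ?_
      apply pow_le_pow_of_le_one (by norm_num) (by norm_num)
      omega
    have h2 : ∀ J : ℕ, J0 ≤ J → ∑ i ∈ Ico J0 J, (1 / 2 : ℝ) ^ (J - i) ≤ 1 := by
      intro J hJ
      induction J, hJ using Nat.le_induction with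
      | base => simp
      | succ J hJ ih =>
        rw [sum_Ico_succ_top hJ]
        have h3 : ∑ i ∈ Ico J0 J, (1 / 2 : ℝ) ^ (J + 1 - i) =
            1 / 2 * ∑ i ∈ Ico J0 J, (1 / 2 : ℝ) ^ (J - i) := by
          rw [mul_sum]
          refine sum_congr rfl fun i hi => ?_
          rw [mem_Ico] at hi
          rw [show J + 1 - i = (J - i) + 1 by omega, pow_succ]
          ring
        rw [h3, show J + 1 - J = 1 by omega, pow_one]
        linarith
    exact h1.trans (h2 J hJ)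
  have hV0 : ∀ i ∈ Ico J0 J, 0 < V i := fun i hi => lt_of_lt_of_le hv0 (hVv i hi)
  have hTr0 : ∀ i ∈ Ico J0 J, 0 < Tr i := fun i hi => lt_of_lt_of_le (hV0 i hi) (hbonf i hi).1
  have hqq : qq Z (2 ^ 2 ^ J0) (2 ^ 2 ^ J) (th J0 J m0) = ∏ i ∈ Ico J0 J, Tr i :=
    th_sum J0 J m0 hJ g
  have hVV : VV Z (2 ^ 2 ^ J0) (2 ^ 2 ^ J) = ∏ i ∈ Ico J0 J, V i := VV_blocks Z J0 J hJ
  refine ⟨th J0 J m0, th_empty J0 J m0, fun U => th_abs J0 J m0 U, ?_, ?_, ?_, ?_⟩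
  · intro U hU hne
    refine (level J0 J m0 hJ U hU hne).trans ?_
    exact Nat.pow_le_pow_right (by positivity) (by omega)
  · intro n
    have h1 := Th_eq Z J0 J m0 n hJ
    rw [h1]
    refine prod_nonneg fun i _ => ?_
    have h2 : ∀ l ∈ Bl i, (0 : ℝ) ≤ (if n % l ∈ Z l then 1 else 0) ∧
        (if n % l ∈ Z l then (1 : ℝ) else 0) ≤ 1 := by
      intro l _
      split_ifs <;> norm_num
    have h := bh_bonf (fun p => if n % p ∈ Z p then 1 else 0) (Bl i) h2 (2 * (J - i + m0))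
    rw [(even_two_mul _).neg_one_pow, one_mul] at h
    have h3 : (0 : ℝ) ≤ ∏ l ∈ Bl i, (1 - (if n % l ∈ Z l then (1 : ℝ) else 0)) :=
      prod_nonneg fun l hl => by linarith [(h2 l hl).2]
    linarith [h.1]
  · rw [hqq, hVV]
    exact prod_le_prod (fun i hi => (hV0 i hi).le) fun i hi => (hbonf i hi).1
  · rw [hqq, hVV]
    have h1 : ∏ i ∈ Ico J0 J, Tr i ≤ ∏ i ∈ Ico J0 J, V i * Real.exp (Er i / v) := by
      refine prod_le_prod (fun i hi => (hTr0 i hi).le) fun i hi => ?_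
      refine (hbonf i hi).2.trans ?_
      have h2 := Real.add_one_le_exp (Er i / v)
      have h3 : V i * (Er i / v + 1) ≤ V i * Real.exp (Er i / v) :=
        mul_le_mul_of_nonneg_left h2 (hV0 i hi).le
      refine le_trans ?_ h3
      have h4 : Er i ≤ V i * (Er i / v) := by
        rw [← mul_div_assoc, le_div_iff₀ hv0, mul_comm (V i)]
        exact mul_le_mul_of_nonneg_left (hVv i hi) (hEr0 i hi)
      linarith
    rw [prod_mul_distrib, ← Real.exp_sum] at h1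
    have h2 : 0 ≤ ∏ i ∈ Ico J0 J, V i := prod_nonneg fun i hi => (hV0 i hi).le
    have h3 : Real.exp (∑ i ∈ Ico J0 J, Er i / v) ≤ C := by
      calc Real.exp (∑ i ∈ Ico J0 J, Er i / v) ≤ Real.exp 1 := Real.exp_le_exp.2 htail
        _ ≤ 3 := by linarith [Real.exp_one_lt_d9]
        _ ≤ C := by exact_mod_cast (by omega : 3 ≤ C)
    calc ∏ i ∈ Ico J0 J, Tr i
        ≤ (∏ i ∈ Ico J0 J, V i) * Real.exp (∑ i ∈ Ico J0 J, Er i / v) := h1
      _ ≤ (∏ i ∈ Ico J0 J, V i) * C := mul_le_mul_of_nonneg_left h3 h2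
      _ = _ := mul_comm _ _

end Pool.Agent.Y257.HS
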